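import Pool.Agent.Q5.BR.Bsd

/-!
# The Birch and Swinnerton-Dyer rank conjecture: from thin families of number fields to all

`E` is an elliptic curve over a number field `K`, and `F` runs through finite extensions of `K`.  The
minimal models `V` and the Euler product `LSeries V s` with the correct factors at all primes are those of
`Pool.Agent.TH322.BC.Defs`.
-/

set_option autoImplicit false

namespace Pool.Agent.Results.MP_ae0bd0_nt.DegreeLaw

open NumberField IsDedekindDomain
open Pool.Agent.TH322.BC.Edge (MinimalModels)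

/-- The rank of the group `E(F)`. -/
noncomputable def rank {F : Type} [Field F] (E : WeierstrassCurve F) : ℕ := by
  classical
  exact Module.finrank ℤ E.toAffine.Point

/-- The domains on which the `L`-functions are considered: a nonempty family of connected open sets which
contain the half plane `Re s > 3/2` and the point `1`, closed under intersections.  For example
`U = {ℂ}`, or the half planes `Re s > σ` with `σ < 1`. -/
def IsDomains (U : Set (Set ℂ)) : Prop :=
  U.Nonempty ∧ (∀ u ∈ U, IsOpen u ∧ IsPreconnected u ∧ (1 : ℂ) ∈ u ∧ ∀ s : ℂ, 3 / 2 < s.re → s ∈ u) ∧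
    ∀ u ∈ U, ∀ u' ∈ U, u ∩ u' ∈ U

/-- The rank conjecture for `E/F`: `L(E/F, s)` has a meromorphic continuation to a domain in `U`, and
its order at `s = 1` is the rank of `E(F)`. -/
def BSD (U : Set (Set ℂ)) {F : Type} [Field F] [NumberField F] (E : WeierstrassCurve F) : Prop :=
  ∀ V : HeightOneSpectrum (𝓞 F) → WeierstrassCurve (𝓞 F), MinimalModels E V →
    ∃ u ∈ U, ∃ f : ℂ → ℂ, MeromorphicOn f u ∧
      (∀ s : ℂ, 3 / 2 < s.re → f s = Pool.Agent.TH322.BC.Edge.LSeries V s) ∧
      meromorphicOrderAt f 1 = ((rank E : ℤ) : WithTop ℤ)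

/-- `L(E/F, s)^t` has a meromorphic continuation to a domain in `U`, and its order at `s = 1` is
`t` times the rank of `E(F)`. -/
def PowerBSD (U : Set (Set ℂ)) {F : Type} [Field F] [NumberField F] (E : WeierstrassCurve F)
    (t : ℕ) : Prop :=
  ∀ V : HeightOneSpectrum (𝓞 F) → WeierstrassCurve (𝓞 F), MinimalModels E V →
    ∃ u ∈ U, ∃ f : ℂ → ℂ, MeromorphicOn f u ∧
      (∀ s : ℂ, 3 / 2 < s.re → f s = Pool.Agent.TH322.BC.Edge.LSeries V s ^ t) ∧
      meromorphicOrderAt f 1 = ((t * rank E : ℤ) : WithTop ℤ)

/-- `L(E/F, s)` has a meromorphic continuation to a domain in `U`. -/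
def Continues (U : Set (Set ℂ)) {F : Type} [Field F] [NumberField F] (E : WeierstrassCurve F) :
    Prop :=
  ∀ V : HeightOneSpectrum (𝓞 F) → WeierstrassCurve (𝓞 F), MinimalModels E V →
    ∃ u ∈ U, ∃ f : ℂ → ℂ, MeromorphicOn f u ∧
      ∀ s : ℂ, 3 / 2 < s.re → f s = Pool.Agent.TH322.BC.Edge.LSeries V s

/-- `F` is generated over `K` by finitely many `p`-th roots of positive integers all of whose prime
factors belong to `T`, and `p ^ k` divides the degree of `F/K`. -/
def TestField (T : Set ℕ) (p k : ℕ) (K F : Type) [Field K] [Field F] [Algebra K F] : Prop :=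
  (∃ S : Set F, S.Finite ∧
    (∀ x ∈ S, ∃ c : ℕ, c ≠ 0 ∧ (∀ l : ℕ, l.Prime → l ∣ c → l ∈ T) ∧ x ^ p = (c : F)) ∧
    IntermediateField.adjoin K S = ⊤) ∧
  p ^ k ∣ Module.finrank K F

/-- A set of positive integers closed under multiples, with greatest common divisor `1`; for example
the multiples of `10^100` together with the multiples of `3^100`, or all `n ≥ 10^100`. -/
def IsSparse (D : Set ℕ) : Prop :=
  (∀ d ∈ D, ∀ n : ℕ, 0 < n → d * n ∈ D) ∧ ∀ g : ℕ, (∀ d ∈ D, g ∣ d) → g = 1

theorem powerBSD_iff (U : Set (Set ℂ)) {F : Type} [Field F] [NumberField F]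
    (E : WeierstrassCurve F) (t : ℕ) : PowerBSD U E t ↔
      Pool.Agent.Q5.BR.AllB U E (t : ℤ) (t * Pool.Agent.Q5.BR.rk E) := by
  unfold PowerBSD Pool.Agent.Q5.BR.AllB Pool.Agent.Q5.BR.PowB
  simp only [zpow_natCast]
  rfl

theorem bsd_iff (U : Set (Set ℂ)) {F : Type} [Field F] [NumberField F]
    (E : WeierstrassCurve F) : BSD U E ↔
      Pool.Agent.Q5.BR.AllB U E 1 (Pool.Agent.Q5.BR.rk E) := by
  unfold BSD Pool.Agent.Q5.BR.AllB Pool.Agent.Q5.BR.PowB
  simp only [zpow_one]
  rfl

/-- **Degree laws for the rank conjecture.**  Let `U` be a family of domains.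
1. If the rank conjecture holds for `E/F` for all test fields `F/K` of one prime `p`, one `k` and one
infinite set `T` of primes, then `L(E/K, s)^(p^k)` has a continuation of order `p^k · rank E(K)` at
`s = 1`; hence the rank conjecture holds for `E/K` if `L(E/K, s)` has a continuation.
2. Counterexamples spread: if the rank conjecture fails for `E/K`, then for all primes `p` with at most
one exception, all `k` and all infinite sets `T` of primes there is a test field `F` such that it fails
for `E/F`; there is no exceptional prime if `L(E/K, s)` has a continuation.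
3. If the rank conjecture holds for `E/F` for all `F/K` with `[F:K] ∈ D`, it holds for all `F/K`.
4. If it holds over all number fields of degree in `D`, it holds over all number fields.
5. If it holds for `E/F` for all `F/K` with `M ∣ [F:K]`, then for all finite `F/K` the function
`L(E/F, s)^m`, `m = M / gcd(M, [F:K])`, has a continuation of order `m · rank E(F)` at `s = 1`, and the
rank conjecture holds for `E/F` if `L(E/F, s)` has a continuation. -/
theorem result (U : Set (Set ℂ)) (hU : IsDomains U) :
    (∀ (K : Type) [Field K] [NumberField K] (E : WeierstrassCurve K), E.IsElliptic →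
      ∀ (p k : ℕ) (T : Set ℕ), p.Prime → (∀ l ∈ T, l.Prime) → T.Infinite →
      (∀ (F : Type) [Field F] [NumberField F] [Algebra K F], TestField T p k K F →
        BSD U (E.map (algebraMap K F))) →
      PowerBSD U E (p ^ k) ∧ (Continues U E → BSD U E)) ∧
    (∀ (K : Type) [Field K] [NumberField K] (E : WeierstrassCurve K), E.IsElliptic →
      ¬ BSD U E → ∃ p₀ : ℕ, ∀ (p k : ℕ) (T : Set ℕ), p.Prime → (p ≠ p₀ ∨ Continues U E) →
      (∀ l ∈ T, l.Prime) → T.Infinite →
      ∃ (F : Type) (_ : Field F) (_ : NumberField F) (_ : Algebra K F), TestField T p k K F ∧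
        ¬ BSD U (E.map (algebraMap K F))) ∧
    (∀ D : Set ℕ, IsSparse D →
      ∀ (K : Type) [Field K] [NumberField K] (E : WeierstrassCurve K), E.IsElliptic →
      (∀ (F : Type) [Field F] [NumberField F] [Algebra K F], Module.finrank K F ∈ D →
        BSD U (E.map (algebraMap K F))) →
      ∀ (F : Type) [Field F] [NumberField F] [Algebra K F], BSD U (E.map (algebraMap K F))) ∧
    (∀ D : Set ℕ, IsSparse D →
      (∀ (F : Type) [Field F] [NumberField F], Module.finrank ℚ F ∈ D →
        ∀ E : WeierstrassCurve F, E.IsElliptic → BSD U E) →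
      ∀ (F : Type) [Field F] [NumberField F] (E : WeierstrassCurve F), E.IsElliptic → BSD U E) ∧
    (∀ M : ℕ, 0 < M →
      ∀ (K : Type) [Field K] [NumberField K] (E : WeierstrassCurve K), E.IsElliptic →
      (∀ (F : Type) [Field F] [NumberField F] [Algebra K F], M ∣ Module.finrank K F →
        BSD U (E.map (algebraMap K F))) →
      ∀ (F : Type) [Field F] [NumberField F] [Algebra K F],
        PowerBSD U (E.map (algebraMap K F)) (M / M.gcd (Module.finrank K F)) ∧
        (Continues U (E.map (algebraMap K F)) → BSD U (E.map (algebraMap K F)))) := by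
  have hU' : Pool.Agent.Q5.BR.IsDomains U := hU
  have cont : ∀ (F : Type) [Field F] [NumberField F] (E : WeierstrassCurve F) (m : ℕ), m ≠ 0 →
      PowerBSD U E m → Continues U E → BSD U E := by
    intro F _ _ E m hm h hc V hV
    rw [powerBSD_iff] at h
    obtain ⟨u, hu, f, hf, hf'⟩ := hc V hV
    exact ⟨u, hu, f, hf, hf', Pool.Agent.Q5.BR.order_of_power hU' hm (h V hV) hu hf hf'⟩
  have part1 : ∀ (K : Type) [Field K] [NumberField K] (E : WeierstrassCurve K), E.IsElliptic →
      ∀ (p k : ℕ) (T : Set ℕ), p.Prime → (∀ l ∈ T, l.Prime) → T.Infinite →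
      (∀ (F : Type) [Field F] [NumberField F] [Algebra K F], TestField T p k K F →
        BSD U (E.map (algebraMap K F))) → PowerBSD U E (p ^ k) := by
    intro K _ _ E hE p k T hp hT hinf h
    have hpf : Fact p.Prime := ⟨hp⟩
    rw [powerBSD_iff]
    have h1 := Pool.Agent.Q5.BR.bsd_power_law_radical hU' hE p hT hinf k (by
      intro F _ _ _ hr hd
      have h2 := h F ⟨hr, hd⟩
      rw [bsd_iff] at h2
      exact h2) k K (Pool.Agent.Q5.BR.isRadical_self T p K) (dvd_mul_left _ _)
    rw [Algebra.algebraMap_self, WeierstrassCurve.map_id] at h1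
    exact h1
  have part3 : ∀ D : Set ℕ, IsSparse D →
      ∀ (K : Type) [Field K] [NumberField K] (E : WeierstrassCurve K), E.IsElliptic →
      (∀ (F : Type) [Field F] [NumberField F] [Algebra K F], Module.finrank K F ∈ D →
        BSD U (E.map (algebraMap K F))) →
      ∀ (F : Type) [Field F] [NumberField F] [Algebra K F],
        BSD U (E.map (algebraMap K F)) := by
    intro D hD K _ _ E hE h F _ _ _
    rw [bsd_iff]
    intro V hV
    have hEF : (E.map (algebraMap K F)).IsElliptic := inferInstance
    exact Pool.Agent.Q5.BR.powB_one_of hU' hEF hV _ hD.2 (fun d hd => by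
      have h2 := Pool.Agent.Q5.BR.bsd_power_law hU' hE (M := d) (by
        intro F' _ _ _ hdv
        obtain ⟨n, hn⟩ := hdv
        have h3 : Module.finrank K F' ∈ D := by
          rw [hn]
          refine hD.1 d hd n (Nat.pos_of_ne_zero ?_)
          rintro rfl
          rw [mul_zero] at hn
          exact (Module.finrank_pos (R := K) (M := F')).ne' hn
        have h4 := h F' h3
        rw [bsd_iff] at h4
        exact h4) d F (dvd_mul_left _ _)
      exact h2 V hV)
  refine ⟨?_, ?_, part3, ?_, ?_⟩
  · intro K _ _ E hE p k T hp hT hinf h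
    have h1 := part1 K E hE p k T hp hT hinf h
    exact ⟨h1, cont K E _ (pow_ne_zero k hp.ne_zero) h1⟩
  · intro K _ _ E hE hnot
    by_cases hc : Continues U E
    · refine ⟨0, fun p k T hp _ hT hinf => ?_⟩
      by_contra hcon
      push Not at hcon
      exact hnot (cont K E _ (pow_ne_zero k hp.ne_zero)
        (part1 K E hE p k T hp hT hinf fun F _ _ _ hF => hcon F _ _ _ hF) hc)
    · by_contra hcon
      push Not at hcon
      obtain ⟨p, k, T, hp, -, hT, hinf, h⟩ := hcon 0
      obtain ⟨q, k', T', hq, hqp, hT', hinf', h'⟩ := hcon p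
      have hqp' : q ≠ p := hqp.resolve_right hc
      have h1 := part1 K E hE p k T hp hT hinf (fun F _ _ _ hF => h F _ _ _ hF)
      have h2 := part1 K E hE q k' T' hq hT' hinf' (fun F _ _ _ hF => h' F _ _ _ hF)
      apply hnot
      rw [powerBSD_iff] at h1 h2
      rw [bsd_iff]
      intro V hV
      exact Pool.Agent.Q5.BR.powB_one_of hU' hE hV _ (D := {p ^ k, q ^ k'}) (by
        intro g hg
        have h4 := hg (p ^ k) (by simp)
        have h5 := hg (q ^ k') (by simp)
        have h6 : Nat.Coprime (p ^ k) (q ^ k') :=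
          Nat.Coprime.pow _ _ ((Nat.coprime_primes hp hq).2 hqp'.symm)
        exact Nat.eq_one_of_dvd_coprimes h6 h4 h5) (by
        rintro d (rfl | rfl)
        · exact h1 V hV
        · exact h2 V hV)
  · intro D hD h F _ _ E hE
    have h1 := part3 D hD F E hE (fun F' _ _ _ hd => h F' (by
      rw [← Module.finrank_mul_finrank ℚ F F', mul_comm]
      exact hD.1 _ hd _ Module.finrank_pos) _ inferInstance) F
    rw [Algebra.algebraMap_self, WeierstrassCurve.map_id] at h1
    exact h1
  · intro M hM K _ _ E hE h F _ _ _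
    have h0 : PowerBSD U (E.map (algebraMap K F)) (M / M.gcd (Module.finrank K F)) := by
      rw [powerBSD_iff]
      exact Pool.Agent.Q5.BR.bsd_power_law hU' hE (M := M) (by
        intro F' _ _ _ hdv
        have h4 := h F' hdv
        rw [bsd_iff] at h4
        exact h4) (M / M.gcd (Module.finrank K F)) F (by
        refine ⟨Module.finrank K F / M.gcd (Module.finrank K F), ?_⟩
        rw [← Nat.mul_div_assoc _ (Nat.gcd_dvd_left _ _), ← Nat.mul_div_assoc _
          (Nat.gcd_dvd_right _ _), mul_comm])
    refine ⟨h0, cont F _ _ ?_ h0⟩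
    exact (Nat.div_pos (Nat.le_of_dvd hM (Nat.gcd_dvd_left _ _))
      (Nat.gcd_pos_of_pos_left _ hM)).ne'

end Pool.Agent.Results.MP_ae0bd0_nt.DegreeLaw
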