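import Pool.Agent.Q269.GB.Asm

/-!
# The growth of the ranks of all the quadratic twists of an elliptic curve over `k(t)` in the constant
# extensions of odd degree: the exact law of the upper bounds, and the proportion of the twists without growth

Let `k` be a finite field of characteristic different from 2 in which `-1` is a square, `K = k(t)`, and let `a`, `b` be
polynomials over `k` such that `a`, `b`, `a - b` have the same degree `N ≥ 1` and `a b (a - b)` is squarefree. For a monic
squarefree polynomial `D` prime to `a b (a - b)` let `E_D` be the quadratic twist `y ^ 2 = x (x - a D) (x - b D)` of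
`y ^ 2 = x (x - a) (x - b)`. The twists are ordered by the degree `n` of `D`, and `k` is fixed. No class of `D` and no
parity of `n` is excluded.

Theorem. To every `D` and every odd `r > 1` one can attach a natural number `g(D, r)` such that:

(1) For ALL the `D` and all the finite extensions `k'` of `k` of odd degree prime to the degrees of the prime divisors of
`a b (a - b)`, with `K' = k'(t)`: `E_D(K')` is finitely generated and

`rank E_D(K) ≤ rank E_D(K') ≤ rank E_D(K) + ∑ φ(r) g(D, r)`, the sum over the divisors `r > 1` of the degree of `k'`;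

if `g(D, r) = 0` for a divisor `r > 1` of the degree, then the part of order `r` of the 2-Selmer group of `E_D` over `K'` (the
part on which the Frobenius automorphism of `k'` over `k` acts by the primitive `r`-th roots of unity) is zero at one
of the primes above two of the field of the `r`-th roots of unity. (By Artin-Tate and Milne it follows that the L-function of
`E_D` twisted by the characters of order `r` of the constant extension does not vanish at the central point.)

(2) As `n` tends to infinity, the `g(D, r)`, `r` in a finite set `R`, are independent in the limit, and `g(D, r)` has the law of the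
minimum of `c(r)` independent variables whose law `newLaw r` is that of the dimension of the kernel of a large random
Hermitian matrix over the field with `2^f` elements, if `-1` is a power of two modulo `r`, or of a large random
square matrix over this field, if it is not; `f` is the order of two modulo `r` and `c(r)` is the number of the classes of the
units modulo `r` up to the multiplication by `± 2^i`.

(3) For every set `T` of odd numbers the proportion of the `D` with `g(D, r) = 0` for all `r > 1` in `T` tends to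

`P(T) = ∏ (1 - (1 - newLaw r 0) ^ c(r)) > 0`, the product over the `r > 1` in `T`.

So if `T` contains the divisors of its elements, for at least the proportion `P(T) - ε` of ALL the twists the rank of `E_D` over
`k'(t)` is the rank over `k(t)` for ALL the extensions `k'` of `k` whose degree is in `T` (and prime to the degrees of the bad
primes), and for these `D` the conjecture of Birch and Swinnerton-Dyer for `E_D` over all these fields is equivalent to the
conjecture for `E_D` over `k(t)`. For `T` the powers of three `P(T) > 0.503`: more than half of all the twists have the same rank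
in the whole tower. For `T` the set of all the odd numbers `P(T)` is positive (numerically `0.2961`): for this
proportion of all the twists there is no growth in any constant extension of odd degree.

The proof: the part of the 2-Selmer group over `k'(t)` attached to a root of unity `ξ` of order `r` in a finite field of
characteristic two is contained in the kernel of a system over this field with two unknowns for each prime factor of `D` of
degree divisible by `r`; the dimension of the kernel depends only on the class of `ξ` up to conjugation and inversion, and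
`g(D, r)` is the smallest of these dimensions: the rank of the part of order `r` of `E_D(k'(t))` is `φ(r)` times its rank over the
integers of the field of the `r`-th roots of unity, which is bounded by each of them. The joint law of the dimensions for finitely
many `ξ` is computed in `Pool/Agent/Q269/GL`. The sum over the large `r` of the probabilities that the kernel for one `ξ`
of order `r` is not zero is small, uniformly in `n`.
-/

set_option autoImplicit false
set_option linter.all false

namespace Pool.Agent.Results.MP_ae0bd0_nt.ExactGrowthLaw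

open Polynomial Filter Pool.Agent.TH115.GD
open scoped Classical

/-- The hypotheses on the finite field `k` and the curve `y ^ 2 = x (x - a) (x - b)`. -/
structure Hypotheses {k : Type} [Field k] (a b : k[X]) (N : ℕ) : Prop where
  two : (2 : k) ≠ 0
  square : IsSquare (-1 : k)
  pos : 1 ≤ N
  deg_a : a.natDegree = N
  deg_b : b.natDegree = N
  deg_sub : (a - b).natDegree = N
  squarefree : Squarefree (a * b * (a - b))

/-- The twists: the monic squarefree polynomials `D` of degree `n` prime to `a b (a - b)`. -/
def Twists {k : Type} [Field k] (a b : k[X]) (n : ℕ) : Set k[X] :=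
  {D | D.Monic ∧ D.natDegree = n ∧ Squarefree D ∧ IsCoprime D (a * b * (a - b))}

/-- The curve `E_D : y ^ 2 = x (x - a D) (x - b D)` over the field `K'` of rational functions over an
extension `k'` of `k`. -/
noncomputable def twist {k : Type} [Field k] (k' K' : Type) [Field k'] [Algebra k k'] [Field K']
    [Algebra k'[X] K'] (a b D : k[X]) : WeierstrassCurve K' :=
  crv (algebraMap k'[X] K' ((a * D).map (algebraMap k k')))
    (algebraMap k'[X] K' ((b * D).map (algebraMap k k')))

/-- The finite extensions `k'` of `k` of odd degree prime to the degrees of the prime divisors of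
`a b (a - b)`. -/
structure OddExtension {k : Type} [Field k] (k' : Type) [Field k'] [Algebra k k'] (a b : k[X]) : Prop where
  odd : Odd (Module.finrank k k')
  coprime : ∀ Q : k[X], Irreducible Q → Q ∣ a * b * (a - b) →
    Nat.Coprime (Module.finrank k k') Q.natDegree

/-- The automorphism of `K' = k'(t)` which fixes `t` and is `x ↦ x ^ |k|` on `k'`. -/
structure IsFrobenius (k k' : Type) {K' : Type} [Field k] [Field k'] [Algebra k k'] [Field K']
    [Algebra k'[X] K'] (σ : K' ≃+* K') : Prop where
  const : ∀ c : k', σ (algebraMap k'[X] K' (C c)) = algebraMap k'[X] K' (C (c ^ Nat.card k))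
  var : σ (algebraMap k'[X] K' X) = algebraMap k'[X] K' X

/-- The pairs `(u, v)` of nonzero elements of `K' = k'(t)` which represent the elements of the 2-Selmer group
of `y ^ 2 = x (x - A) (x - B)`: at all the places `w` of `K'` there is a point `Q` over the completion with
`u ≡ x(Q)`, `v ≡ x(Q) - A` modulo squares (with the usual convention at the points of order two). -/
def SelmerPair (k' : Type) {K' : Type} [Field k'] [Field K'] [Algebra k'[X] K'] [IsFractionRing k'[X] K']
    (A B u v : K') : Prop :=
  u ≠ 0 ∧ v ≠ 0 ∧ LSg (F := K') k' (crv A B) A B u v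

/-- `p(σ)` applied to `u` (written multiplicatively). -/
noncomputable def polyAct {K' : Type} [Field K'] (σ : K' ≃+* K') (p : (ZMod 2)[X]) (u : K') : K' :=
  ∏ i ∈ Finset.range (p.natDegree + 1), (σ^[i] u) ^ (p.coeff i).val

/-- The part of order `r` of the 2-Selmer group of `E_D` over `K' = k'(t)` at some prime above two is zero: the group
is killed by `p(σ)`, `σ` the Frobenius automorphism, for a polynomial `p` over the field with two elements which
is not divisible by the cyclotomic polynomial `Φ_r`. -/
def NoPart {k : Type} [Field k] (k' K' : Type) [Field k'] [Algebra k k'] [Field K'] [Algebra k'[X] K']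
    [IsFractionRing k'[X] K'] (a b D : k[X]) (r : ℕ) : Prop :=
  ∀ σ : K' ≃+* K', IsFrobenius k k' σ → ∃ p : (ZMod 2)[X], ¬ cyclotomic r (ZMod 2) ∣ p ∧ ∀ u v : K',
    SelmerPair k' (algebraMap k'[X] K' ((a * D).map (algebraMap k k')))
      (algebraMap k'[X] K' ((b * D).map (algebraMap k k'))) u v →
    IsSquare (polyAct σ p u) ∧ IsSquare (polyAct σ p v)

/-- The numbers `g r` bound the growth of the rank of `E_D` in the constant extensions of odd degree. -/
def BoundsGrowth {k : Type} [Field k] (a b D : k[X]) (g : ℕ → ℕ) : Prop :=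
  ∀ (K k' K' : Type) [Field K] [Algebra k[X] K] [IsFractionRing k[X] K] [Field k'] [Finite k']
    [Algebra k k'] [Field K'] [Algebra k'[X] K'] [IsFractionRing k'[X] K'], OddExtension k' a b →
    AddGroup.FG (Pt (twist k' K' a b D) K') ∧
    Module.finrank ℤ (Pt (twist k K a b D) K) ≤ Module.finrank ℤ (Pt (twist k' K' a b D) K') ∧
    Module.finrank ℤ (Pt (twist k' K' a b D) K') ≤ Module.finrank ℤ (Pt (twist k K a b D) K) +
      ∑ r ∈ (Module.finrank k k').divisors.filter (1 < ·), Nat.totient r * g r ∧
    ∀ r : ℕ, 1 < r → r ∣ Module.finrank k k' → g r = 0 → NoPart k' K' a b D r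

/-- The rank of `E_D` over `k'(t)` is the rank over `k(t)` for all the extensions `k'` of `k` whose degree is in `T` and prime to
the degrees of the prime divisors of `a b (a - b)`. -/
def NoGrowth {k : Type} [Field k] (a b : k[X]) (T : Set ℕ) (D : k[X]) : Prop :=
  ∀ (K k' K' : Type) [Field K] [Algebra k[X] K] [IsFractionRing k[X] K] [Field k'] [Finite k']
    [Algebra k k'] [Field K'] [Algebra k'[X] K'] [IsFractionRing k'[X] K'], OddExtension k' a b →
    Module.finrank k k' ∈ T →
    Module.finrank ℤ (Pt (twist k' K' a b D) K') = Module.finrank ℤ (Pt (twist k K a b D) K)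

/-- The proportion of the `D` with the property `P` in `Twists a b n`. -/
noncomputable def proportion {k : Type} [Field k] (a b : k[X]) (P : k[X] → Prop) (n : ℕ) : ℝ :=
  (({D ∈ Twists a b n | P D}.ncard : ℕ) : ℝ) / (((Twists a b n).ncard : ℕ) : ℝ)

/-- `-1` is a power of `2` modulo `r`. -/
def Unitary (r : ℕ) : Prop := ∃ m : ℕ, r ∣ 2 ^ m + 1

/-- The law of the dimension of the kernel of a random Hermitian matrix over the field with `Q²` elements. -/
noncomputable def lawHermitian (Q : ℝ) (j : ℕ) : ℝ :=
  (∏' i : ℕ, (1 + Q⁻¹ ^ (2 * i + 1)))⁻¹ * Q⁻¹ ^ (j ^ 2) / ∏ i ∈ Finset.range j, (1 - Q⁻¹ ^ (2 * (i + 1)))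

/-- The law of the dimension of the kernel of a random square matrix over the field with `q` elements. -/
noncomputable def lawSquare (q : ℝ) (j : ℕ) : ℝ :=
  (∏' i : ℕ, (1 - q⁻¹ ^ (i + 1))) * q⁻¹ ^ (j ^ 2) / (∏ i ∈ Finset.range j, (1 - q⁻¹ ^ (i + 1))) ^ 2

/-- The law for the order `r`. -/
noncomputable def newLaw (r : ℕ) : ℕ → ℝ :=
  if Unitary r then lawHermitian (2 ^ (orderOf (2 : ZMod r) / 2)) else lawSquare (2 ^ orderOf (2 : ZMod r))

/-- The number of the classes of the units modulo `r` up to `± 2 ^ i`. -/
noncomputable def classes (r : ℕ) : ℕ :=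
  Nat.totient r / (if Unitary r then orderOf (2 : ZMod r) else 2 * orderOf (2 : ZMod r))

/-- The product of the probabilities for the odd `r > 1` in `T`. -/
noncomputable def productOver (T : Set ℕ) : ℝ :=
  ∏' r : {r : ℕ // r ∈ T ∧ Odd r ∧ 1 < r}, (1 - (1 - newLaw r.1 0) ^ classes r.1)

section proof

open Pool.Agent.Q269.GR Pool.Agent.Q269.GL Pool.Agent.Q269.GB Pool.Agent.Y164.PS Finset

theorem newLaw_eq : lawR = newLaw := rfl

theorem orderOf_two_pos {r : ℕ} (hr : Odd r) : 0 < orderOf (2 : ZMod r) := by
  have hr0 : NeZero r := ⟨by rintro rfl; exact absurd hr (by decide)⟩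
  rw [orderOf_pos_iff]
  have h3 : IsUnit ((2 : ℕ) : ZMod r) := (ZMod.isUnit_iff_coprime 2 r).2 (by
    rw [Nat.coprime_comm]
    exact (Nat.coprime_two_right).2 hr)
  have h4 := isOfFinOrder_of_finite h3.unit
  rw [← Units.isOfFinOrder_val, IsUnit.unit_spec, Nat.cast_ofNat] at h4
  exact h4

theorem classes_eq {r : ℕ} (hr : Odd r) (hr1 : 1 < r) : classes r = (rp r).card := by
  have h := Pool.Agent.Q269.GL.Asm.c_RPX.2.2.2 r hr hr1
  have h1 := orderOf_two_pos hr
  have h2 : 0 < (if Unitary r then orderOf (2 : ZMod r) else 2 * orderOf (2 : ZMod r)) := by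
    split_ifs <;> omega
  unfold classes
  rw [← h]
  exact Nat.mul_div_cancel _ h2

theorem product_eq (T : Set ℕ) : productOver T = PU T := by
  unfold productOver PU
  refine tprod_congr fun r => ?_
  rw [pu, classes_eq r.2.2.1 r.2.2.2]
  rfl

theorem hyf {k : Type} [Field k] {a b : k[X]} {N : ℕ} (h : Hypotheses a b N) : Hyf a b N :=
  ⟨h.two, h.square, h.pos, h.deg_a, h.deg_b, h.deg_sub, h.squarefree⟩

theorem ext_of {k k' : Type} [Field k] [Fintype k] [Field k'] [Fintype k'] [Algebra k k'] {a b : k[X]}
    (h : OddExtension k' a b) : Ext k k' a b := ⟨h.odd, fun Q _ hi hd => h.coprime Q hi hd⟩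

theorem sg_of {k k' K' : Type} [Field k] [Fintype k] [Field k'] [Algebra k k'] [Field K']
    [Algebra k'[X] K'] {σ : K' ≃+* K'} (h : IsFrobenius k k' σ) : IsSg k k' σ := by
  constructor
  intro p
  induction p using Polynomial.induction_on' with
  | add p q hp hq => rw [map_add, map_add, hp, hq, ph, ph, ph, Polynomial.map_add, map_add]
  | monomial n c =>
    rw [← C_mul_X_pow_eq_monomial, map_mul, map_mul, map_pow, map_pow, h.const, h.var, ph,
      Polynomial.map_mul, Polynomial.map_pow, Polynomial.map_C, Polynomial.map_X, map_mul,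
      map_pow (algebraMap k'[X] K') X, Nat.card_eq_fintype_card]
    rfl

theorem mm_self {k K : Type} [Field k] [Field K] [Algebra k[X] K] (A : k[X]) :
    algebraMap k[X] K (A.map (algebraMap k k)) = algebraMap k[X] K A := by
  rw [Algebra.algebraMap_self, Polynomial.map_id]

theorem twist_self {k K : Type} [Field k] [Field K] [Algebra k[X] K] (a b D : k[X]) :
    twist k K a b D = crv (algebraMap k[X] K (a * D)) (algebraMap k[X] K (b * D)) := by
  rw [twist, mm_self, mm_self]

theorem rank_self {k K : Type} [Field k] [Field K] [Algebra k[X] K] (a b D : k[X]) :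
    Module.finrank ℤ (Pt (twist k K a b D) K) =
      Module.finrank ℤ (Pt (crv (algebraMap k[X] K (a * D)) (algebraMap k[X] K (b * D))) K) := by
  rw [twist_self]

theorem ncard_tw {k : Type} [Field k] [Fintype k] (a b : k[X]) (n : ℕ) (P : k[X] → Prop) :
    {D ∈ Twists a b n | P D}.ncard = ((Dn (a * b * (a - b)) n).filter fun D => P D).card := by
  rw [← Set.ncard_coe_finset]
  congr 1
  ext D
  rw [Finset.mem_coe, mem_filter, mem_Dn']
  show (_ ∧ _ ∧ _ ∧ _) ∧ _ ↔ _
  tauto

theorem ncard_tw' {k : Type} [Field k] [Fintype k] (a b : k[X]) (n : ℕ) :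
    (Twists a b n).ncard = (Dn (a * b * (a - b)) n).card := by
  rw [← Set.ncard_coe_finset]
  congr 1
  ext D
  rw [Finset.mem_coe, mem_Dn']
  show (_ ∧ _ ∧ _ ∧ _) ↔ _
  tauto

theorem prop_eq {k : Type} [Field k] [Fintype k] (a b : k[X]) (n : ℕ) (P : k[X] → Prop)
    (i : DecidablePred P) :
    ((@Finset.filter _ P i (Dn (a * b * (a - b)) n)).card : ℝ) /
      ((Dn (a * b * (a - b)) n).card : ℝ) = proportion a b P n := by
  rw [proportion, ncard_tw, ncard_tw',
    fil_card (Dn (a * b * (a - b)) n) P P i (fun D => Classical.propDecidable (P D)) (fun _ => Iff.rfl)]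

theorem bounds {k : Type} [Field k] [Fintype k] {a b : k[X]} {N : ℕ} (h : Hypotheses a b N) {n : ℕ}
    {D : k[X]} (hD : D ∈ Dn (a * b * (a - b)) n) : BoundsGrowth a b D (gm a b D) := by
  intro K k' K' _ _ _ _ _ _ _ _ _ he
  let _ : Fintype k' := Fintype.ofFinite k'
  obtain ⟨g1, g2, g3⟩ := Pool.Agent.Q269.GB.growth Pool.Agent.Q269.GB.Asm.e_GRA (hyf h).hyp (ext_of he) hD K K'
  rw [rank_self]
  refine ⟨g1, g2, g3, fun r hr hd h0 σ hσ => ?_⟩
  have ho : Odd r := he.odd.of_dvd_nat hd
  obtain ⟨u, hu, hK⟩ := gm_zero.1 h0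
  have hord : orderOf (xi r ^ u) = r := by
    have e := (Pool.Agent.Q269.GR.Asm.a_XIR r ho hr).ord
    rw [Nat.Coprime.orderOf_pow (by rw [e]; exact hu.symm), e]
  obtain ⟨p, hp, h4⟩ := Pool.Agent.Q269.GR.Asm.a_SEL k k' K' σ (sg_of hσ) (Fr r) (xi r ^ u) r hord hr hd
    (hyf h).hyp.hk he.odd
  have hK' : Pool.Agent.Q269.GR.KD r (xi r ^ u) a b D = ⊥ := by
    have e := Pool.Agent.Q269.GL.Asm.c_KDE k (hyf h).hyp.hk h.square a b h.squarefree.ne_zero n D hD (Fr r) (xi r ^ u) r
    rw [hK, finrank_bot] at e
    exact Submodule.finrank_eq_zero.1 e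
  exact ⟨p, hp, fun x v hxv => h4 a b N (hyf h).hyp (ext_of he) n D hD hK' x v hxv.1 hxv.2.1 hxv.2.2⟩

theorem noGrowth {k : Type} [Field k] {a b D : k[X]} {g : ℕ → ℕ} (h : BoundsGrowth a b D g) {T : Set ℕ}
    (hT : ∀ r ∈ T, ∀ d : ℕ, d ∣ r → d ∈ T) (hg : ∀ r ∈ T, Odd r → 1 < r → g r = 0) : NoGrowth a b T D := by
  intro K k' K' _ _ _ _ _ _ _ _ _ he hm
  obtain ⟨-, g2, g3, -⟩ := h K k' K' he
  refine le_antisymm (g3.trans (le_of_eq ?_)) g2
  rw [Finset.sum_eq_zero (fun r hr => ?_), add_zero]
  rw [mem_filter, Nat.mem_divisors] at hr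
  rw [hg r (hT _ hm r hr.1.1) (he.odd.of_dvd_nat hr.1.1) hr.2, mul_zero]

end proof

open Pool.Agent.Q269.GR Pool.Agent.Q269.GL Pool.Agent.Q269.GB Pool.Agent.Y164.PS in
/-- **Theorem.** -/
theorem result (k : Type) [Field k] [Finite k] (a b : k[X]) (N : ℕ) (h : Hypotheses a b N) :
    (∃ g : k[X] → ℕ → ℕ,
      (∀ n : ℕ, ∀ D ∈ Twists a b n, BoundsGrowth a b D (g D)) ∧
      (∀ R : Finset ℕ, (∀ r ∈ R, Odd r ∧ 1 < r) → ∀ t : ℕ → ℕ,
        Tendsto (proportion a b fun D => ∀ r ∈ R, t r ≤ g D r) atTop
          (nhds (∏ r ∈ R, (∑' j : {j : ℕ // t r ≤ j}, newLaw r j.1) ^ classes r))) ∧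
      ∀ T : Set ℕ, 0 < productOver T ∧
        Tendsto (proportion a b fun D => ∀ r ∈ T, Odd r → 1 < r → g D r = 0) atTop
          (nhds (productOver T))) ∧
    (∀ T : Set ℕ, (∀ r ∈ T, ∀ d : ℕ, d ∣ r → d ∈ T) → ∀ ε : ℝ, 0 < ε → ∀ᶠ n : ℕ in atTop,
      productOver T - ε ≤ proportion a b (NoGrowth a b T) n) ∧
    (∃ c : ℝ, 0 < c ∧ ∀ᶠ n : ℕ in atTop,
      c * (Nat.card k : ℝ) ^ n ≤ (((Twists a b n).ncard : ℕ) : ℝ)) ∧
    (∀ r : ℕ, Odd r → 1 < r → (∀ j, 0 < newLaw r j) ∧ HasSum (newLaw r) 1 ∧ 0 < classes r) ∧
    0.503 < productOver {m | ∃ i : ℕ, m = 3 ^ i} := by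
  let _ : Fintype k := Fintype.ofFinite k
  have hgr : ∀ T : Set ℕ, Tendsto (proportion a b fun D => ∀ r ∈ T, Odd r → 1 < r → gm a b D r = 0) atTop
      (nhds (productOver T)) := by
    intro T
    rw [product_eq]
    refine (prop_inf Pool.Agent.Q269.GB.Asm.e_INU Pool.Agent.Q269.GR.Asm.a_DEN (hyf h) T).congr fun n => ?_
    exact prop_eq a b n _ _
  refine ⟨⟨fun D => gm a b D, ?_, ?_, ?_⟩, ?_, ?_, ?_, ?_⟩
  · intro n D hD
    refine bounds h (n := n) ?_
    rw [mem_Dn']
    obtain ⟨h1, h2, h3, h4⟩ := hD
    tauto
  · intro R hR t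
    have h1 := tails Pool.Agent.Q269.GL.Asm.c_ENL Pool.Agent.Q269.GR.Asm.a_DEN Pool.Agent.Q269.GL.Asm.c_LWU
      Pool.Agent.Q269.GL.Asm.c_LWN Pool.Agent.Q269.GL.Asm.c_RPX Pool.Agent.Q269.GL.Asm.c_CJD (hyf h) hR t
    have e : ∏ r ∈ R, (∑' j : {j : ℕ // t r ≤ j}, newLaw r j.1) ^ classes r =
        ∏ r ∈ R, (∑' j : {j : ℕ // t r ≤ j}, lawR r j.1) ^ (rp r).card := by
      refine Finset.prod_congr rfl fun r hr => ?_
      rw [classes_eq (hR r hr).1 (hR r hr).2, newLaw_eq]
    rw [e]
    refine h1.congr fun n => ?_
    exact prop_eq a b n _ _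
  · intro T
    rw [product_eq]
    refine ⟨(Pool.Agent.Q269.GB.Asm.e_TPS.2 T).1, ?_⟩
    rw [← product_eq]
    exact hgr T
  · intro T hT ε hε
    have h1 := (tendsto_order.1 (hgr T)).1 (productOver T - ε) (by linarith)
    filter_upwards [h1] with n hn
    refine hn.le.trans ?_
    rw [← prop_eq a b n _ (Classical.decPred _), ← prop_eq a b n _ (Classical.decPred _)]
    refine div_le_div_of_nonneg_right (Nat.cast_le.2 (Finset.card_le_card fun D hD => ?_)) (Nat.cast_nonneg _)
    rw [Finset.mem_filter] at hD ⊢
    exact ⟨hD.1, noGrowth (bounds h hD.1) hT hD.2⟩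
  · obtain ⟨c, hc, h1⟩ := lowerD Pool.Agent.Q269.GR.Asm.a_DEN (hyf h)
    refine ⟨c, hc, ?_⟩
    filter_upwards [h1] with n hn
    rw [ncard_tw', Nat.card_eq_fintype_card]
    exact hn
  · intro r hr hr1
    have h1 := lawR_pos Pool.Agent.Q269.GL.Asm.c_LWU Pool.Agent.Q269.GL.Asm.c_LWN hr hr1
    rw [newLaw_eq] at h1
    refine ⟨h1.1, h1.2, ?_⟩
    rw [classes_eq hr hr1]
    exact (Pool.Agent.Q269.GB.Asm.e_TPS.1 r hr hr1).2.2.2
  · rw [product_eq]
    exact Pool.Agent.Q269.GB.Asm.e_NUA

end Pool.Agent.Results.MP_ae0bd0_nt.ExactGrowthLaw
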