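import Mathlib
import Pool.Agent.Q7.RL.Model
import Pool.Agent.Q7.RL.AOne

/-!
# One subfield decides: no growth from M^t to M

`M/K` is a Galois extension of number fields with group `M ≃ₐ[K] M`, an arbitrary finite group, and
`E` is an elliptic curve over `K` with an integral equation `W` (`IsModel E W`).

The L-functions and ranks are real ones. `LSeries V` is the Euler product `L(E/F, s)` with the right
factors at all primes of `F`, for `Re s > 3/2`; `rank E` is the rank of the group of points.
`Pool.Agent.Q92.RT.twistedL M W φ` is `L(E ⊗ φ, s)` for a class function `φ` of the Galois group: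
`exp ∑ φ(Frob_v ^ n) (α_v ^ n + β_v ^ n) / (n q_v ^ (n s))` over `n ≥ 1` and the primes `v` of `K` which do not
divide `6` and the discriminant of `W` and are unramified in `M`; the finitely many Euler factors left
out have no zeros and poles for `Re s ≥ 1`. `Continues f g` says that `f` is meromorphic on `ℂ` and
equal to `g` for `Re s > 3/2`; `HasOrder g s₀ n` and `LOrder E s₀ n` say that `g`, or `L(E, s)`, has a
meromorphic continuation to `ℂ`, of order `n` at `s₀`.

`Pool.Agent.Q92.RT.Automorphic M W s₀` is the only assumption, and concerns continuation only; it is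
known if `E` is automorphic over `M` (Brauer; solvable descent): `L(E ⊗ χ, s)` has a meromorphic
continuation for the irreducible characters `χ` of the Galois group, and `L(E/M^H ⊗ ψ, s)` has one
which is holomorphic at `s₀` for the linear characters `ψ` of the SOLVABLE subgroups `H`.

`Pool.Agent.Q7.GR.Reach T g`: the elements `g` reached from a subset `T` of a group are the smallest
set which contains `1` and `T`, all conjugates of its elements, the product of any two of its elements
which commute, and the product of any two of its elements which have square one.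
`IntermediateField.fixedField (Subgroup.zpowers t)` is the fixed field `M^t` of `t`.
-/

set_option autoImplicit false

open NumberField IsDedekindDomain Pool.Agent.H541R3.ART Pool.Agent.W446.AS Pool.Agent.H302R2
  Pool.Agent.H302R3 Pool.Agent.Q7.TZ Pool.Agent.Q7.SZ Pool.Agent.Q92.RT Pool.Agent.W353.NF
  Pool.Agent.H341R2.EC Pool.Agent.Q7.RL Pool.Agent.Q7.GR IntermediateField Equiv

/-- Let `E` be an elliptic curve over the number field `K` and `M/K` a Galois extension; let `n χ` and
`r F` be the orders of `L(E ⊗ χ, s)` and `L(E/F, s)` at `s₀`, `Re s₀ ≥ 1`.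
(1) Let `T` be a subset of the Galois group from which all its elements are reached. Then
`r (M^t) = r M` for all `t ∈ T` if and only if `L(E ⊗ χ, s)` is holomorphic and nonzero at `s₀` for
all nontrivial irreducible characters `χ`; and if so, `r F = r K` for all fields `F` between `K` and
`M`. At `s₀ = 1` the rank conjecture then holds for `E` over all fields between `K` and `M` if and only
if it holds over `K` and `M`, and, if `E(M^t)` and `E(M)` have the same rank for `t ∈ T`, if and only
if it holds over `K`.
(2) If the Galois group is the symmetric group `S_n` (any `n`), this applies to `T = {t}`, where `t` is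
one transposition.
(3) If every element of the Galois group is a product of two elements of square one, this applies to
the set `T` of all elements of square one. -/
theorem Pool.Agent.Results.MP_ae0bd0_nt.OneSubfieldDecides.result
    (K M : Type) [Field K] [NumberField K] [Field M] [NumberField M] [Algebra K M] [IsGalois K M]
    (E : WeierstrassCurve K) (hE : E.IsElliptic) (W : WeierstrassCurve (𝓞 K)) (hW : IsModel E W) :
    (∀ T : Set (M ≃ₐ[K] M), (∀ g, Reach T g) →
      (∀ s₀ : ℂ, 1 ≤ s₀.re → Automorphic M W s₀ →
        ∃ (n : ((M ≃ₐ[K] M) → ℂ) → ℤ) (r : IntermediateField K M → ℤ), Orders E W s₀ n r ∧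
          ((∀ t ∈ T, r (fixedField (Subgroup.zpowers t)) = r ⊤) ↔
            ∀ χ ∈ Irr (M ≃ₐ[K] M), χ ≠ (fun _ => 1) → n χ = 0) ∧
          ((∀ t ∈ T, r (fixedField (Subgroup.zpowers t)) = r ⊤) → (∀ F, r F = r ⊥) ∧
            (s₀ = 1 →
              ((∀ F : IntermediateField K M, r F = rank (E.map (algebraMap K F))) ↔
                r ⊥ = rank E ∧ r ⊤ = rank (E.map (algebraMap K M))) ∧
              ((∀ t ∈ T, rank (E.map (algebraMap K (fixedField (Subgroup.zpowers t) :
                  IntermediateField K M))) = rank (E.map (algebraMap K M))) →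
                ((∀ F : IntermediateField K M, r F = rank (E.map (algebraMap K F))) ↔
                  r ⊥ = rank E)))))) ∧
    (∀ (n : ℕ) (e : (M ≃ₐ[K] M) ≃* Perm (Fin n)) (i j : Fin n), i ≠ j →
      ∀ g, Reach ({e.symm (swap i j)} : Set (M ≃ₐ[K] M)) g) ∧
    ((∀ g : M ≃ₐ[K] M, ∃ s t : M ≃ₐ[K] M, s * s = 1 ∧ t * t = 1 ∧ g = s * t) →
      ∀ g : M ≃ₐ[K] M, Reach {t : M ≃ₐ[K] M | t * t = 1} g) := by
  classical
  obtain ⟨h1, h2, h3⟩ := abs_one
  refine ⟨fun T hT s₀ hs a => ?_, fun n e i j hij g => ?_, h3 (M ≃ₐ[K] M)⟩
  · obtain ⟨n, r, ho⟩ := exists_orders (M := M) hE hW hs a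
    obtain ⟨h4, h5⟩ := h1 (M ≃ₐ[K] M) T hT s₀ (TwistData.ofCurve a).model
    have hfx : ∀ t : M ≃ₐ[K] M,
        (fixedField (Subgroup.zpowers t) : IntermediateField K M).fixingSubgroup =
          Subgroup.zpowers t := fun t => fixingSubgroup_fixedField _
    have hT' : (∀ t ∈ T, meromorphicOrderAt ((TwistData.ofCurve a).model.Lin
        (Subgroup.zpowers t) 1) s₀ = meromorphicOrderAt ((TwistData.ofCurve a).model.Lin ⊥ 1) s₀) ↔
        ∀ t ∈ T, r (fixedField (Subgroup.zpowers t)) = r ⊤ := by
      refine forall_congr' fun t => imp_congr_right fun _ => ?_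
      rw [ho.mbot hE hW hs a]
      have h6 := ho.mlin hE hW hs a (fixedField (Subgroup.zpowers t))
      rw [hfx] at h6
      rw [h6]
      exact WithTop.coe_eq_coe
    have hbotK : meromorphicOrderAt ((TwistData.ofCurve a).model.Lin ⊤ 1) s₀ =
        ((r ⊥ : ℤ) : WithTop ℤ) := by
      rw [model_Lin]
      exact ho.top hE hW hs a
    refine ⟨n, r, ho, ?_, fun ht => ?_⟩
    · rw [← hT', h4]
      refine forall_congr' fun χ => forall_congr' fun hχ => imp_congr_right fun _ => ?_
      rw [ho.mL a hχ]
      exact WithTop.coe_eq_coe
    · obtain ⟨h6, h7⟩ := h5 (hT'.2 ht)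
      have h8 : ∀ F, r F = r ⊥ := by
        intro F
        have e1 := h6 F.fixingSubgroup
        have e2 := h6 ⊤
        rw [ho.mlin hE hW hs a F] at e1
        rw [hbotK] at e2
        rw [← e2] at e1
        exact_mod_cast e1
      refine ⟨h8, fun h1s => ?_⟩
      subst h1s
      have hfin : FiniteDimensional ℚ (TensorProduct ℤ ℚ (E.baseChange M).toAffine.Point) :=
        mw_finite hE
      obtain ⟨h9, h10⟩ := h7 (TensorProduct ℤ ℚ (E.baseChange M).toAffine.Point) (mw E M)
      have hrank : rank (E.map (algebraMap K (⊥ : IntermediateField K M))) = rank E := by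
        have e1 := Pool.Agent.Q5.BR.finrank_invariants E (N := M) (F := K) (Algebra.ofId K M)
        have e2 := Pool.Agent.Q5.BR.finrank_invariants E (N := M) (F := (⊥ : IntermediateField K M))
          (⊥ : IntermediateField K M).val
        have e3 : (Algebra.ofId K M).fieldRange = (⊥ : IntermediateField K M) := by
          ext x
          rw [AlgHom.mem_fieldRange, IntermediateField.mem_bot]
          rfl
        have e4 : (⊥ : IntermediateField K M).val.fieldRange = (⊥ : IntermediateField K M) :=
          (⊥ : IntermediateField K M).fieldRange_val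
        rw [e3] at e1
        rw [e4] at e2
        have e5 : E.baseChange K = E := by
          change E.map (algebraMap K K) = E
          rw [Algebra.algebraMap_self, WeierstrassCurve.map_id]
        rw [e5] at e1
        unfold rank
        exact e2.symm.trans e1
      have hK : RankHolds (TwistData.ofCurve a).model (mw E M) ⊤ ↔ r ⊥ = rank E := by
        have e1 := ho.rankHolds hE hW a ⊥
        rw [IntermediateField.fixingSubgroup_bot, hrank] at e1
        exact e1
      have hMM : RankHolds (TwistData.ofCurve a).model (mw E M) ⊥ ↔
          r ⊤ = rank (E.map (algebraMap K M)) := by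
        unfold RankHolds
        rw [ho.mbot hE hW hs a, rk_mw_bot]
        exact WithTop.coe_eq_coe
      refine ⟨?_, fun hrk => ?_⟩
      · rw [← ho.rankHolds_all hE hW a, h9, hK, hMM]
      · rw [← ho.rankHolds_all hE hW a, ← hK]
        refine h10 fun t htT => ?_
        have e1 := hrk t htT
        rw [← rk_mw, ← rk_mw_bot (E := E), hfx] at e1
        exact triv_of_rk _ e1 t (Subgroup.mem_zpowers t)
  · have h4 : ∀ x : Perm (Fin n), Reach ({swap i j} : Set (Perm (Fin n))) x →
        Reach ({e.symm (swap i j)} : Set (M ≃ₐ[K] M)) (e.symm x) := by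
      intro x hx
      induction hx with
      | one => rw [map_one]; exact Reach.one
      | base h =>
        rw [Set.mem_singleton_iff] at h
        rw [h]
        exact Reach.base rfl
      | conj g _ ih =>
        rw [map_mul, map_mul, map_inv]
        exact Reach.conj _ ih
      | comm _ _ h ih1 ih2 =>
        rw [map_mul]
        exact Reach.comm ih1 ih2 (by rw [← map_mul, h, map_mul])
      | dih hs ht _ _ ih1 ih2 =>
        rw [map_mul]
        exact Reach.dih (by rw [← map_mul, hs, map_one]) (by rw [← map_mul, ht, map_one]) ih1 ih2
    have h5 := h4 (e g) (h2 n i j hij (e g))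
    rwa [MulEquiv.symm_apply_apply] at h5
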