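import Pool.Agent.Q283.TC.Fin

/-!
# Prime cubic twists of several cubic twists at once

`K` is the field of third roots of unity and `E_D : y² + D y = x³` for `D` in `𝓞 K`, `D ≠ 0`, the
cubic twists of `E : y² + y = x³`. Let `D_1, …, D_n` be any squarefree elements, `1` modulo `3`.
The primes `π = 1` modulo `3` are ordered by the norm; `π` is *allowed* if all the `D_i π` are
squarefree with a norm that is not `1` modulo `9`.

* The allowed primes have density `a / 3` among the primes `π = 1` modulo `3`, where `a` is the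
  number of the classes `r = 1, 4, 7` modulo `9` with `N(D_i) r ≠ 1` modulo `9` for all `i`.
* If `a > 0`, the proportion of the allowed primes `π` such that for all `i` at once `E_{D_i π}(K)`
  is finite, `Ш(E_{D_i π} / K)[3^∞] = 0`, and the `L`-series of `E_{D_i π}` over `K` continues
  analytically with order of vanishing at `1` equal to the rank (both `0`) tends to an explicit
  constant `c(D_1, …, D_n)`: the proportion of the functions `u` on the prime divisors of
  `D_1 ⋯ D_n` with values in the field with three elements such that for all `i` the Laplacian of the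
  cubic residue symbols of the prime divisors of `D_i`, with `u` added to the diagonal, is
  nonsingular.
* `c(D_1, …, D_n) > 0` if no prime divides three of the `D_i`.
* For `n ≤ 2` both `a` and `c` are positive: for any two cubic twists a positive proportion of the
  primes satisfies the conclusion for both.

The group `Sha` of the library is the group of the continuous cocycles of the absolute Galois group
of `K` with values in the points over an algebraic closure of `K` that are coboundaries at all the
places, modulo the coboundaries.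

The criterion for one `D`, the descent and the nonvanishing are from the starting library
(`Pool/Agent/Y696/CTK`, see `Pool.Agent.Results.MP_32c55d_nt.ExactProportionCubicTwists`), and so is
Chebotarev's density theorem (`Pool/Agent/W401/Cheb`).
-/

set_option autoImplicit false

namespace Pool.Agent.Results.MP_ae0bd0_nt.SimultaneousCubicTwists

open NumberField WeierstrassCurve
open Pool.Agent.TH841.NF.D (Sha)
open scoped Classical

/-- The curve `E_D : y² + D y = x³`. -/
def curve {F : Type} [Field F] (D : F) : WeierstrassCurve F := ⟨0, 0, D, 0, 0⟩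

/-- `W` is an elliptic curve, `W(K)` is finite, and the `L`-series of `W` continues analytically
from `Re s > 3 / 2` to a connected open set that contains `1`, where its order of vanishing is equal
to the rank of `W(K)` (which is `0`). -/
def RankZero {K : Type} [Field K] [NumberField K] (W : WeierstrassCurve K) : Prop :=
  W.IsElliptic ∧ Finite W.toAffine.Point ∧
  ∃ (U : Set ℂ) (L : ℂ → ℂ),
    IsOpen U ∧ IsConnected U ∧ {s : ℂ | (3 / 2 : ℝ) < s.re} ⊆ U ∧ (1 : ℂ) ∈ U ∧
    AnalyticOnNhd ℂ L U ∧ (∀ s : ℂ, (3 / 2 : ℝ) < s.re → L s = W.LSeries s) ∧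
    (∀ r : ℕ, r < Module.finrank ℤ W.toAffine.Point → iteratedDeriv r L 1 = 0) ∧
    iteratedDeriv (Module.finrank ℤ W.toAffine.Point) L 1 ≠ 0

variable {K : Type} [Field K] [NumberField K]

/-- `E_D(K)` is finite and the `3`-primary part of `Ш(E_D / K)` is trivial. -/
def FiniteAndTrivial (D : 𝓞 K) : Prop :=
  Finite (curve (D : K)).toAffine.Point ∧ ∀ (n : ℕ) (x : Sha (curve (D : K))), 3 ^ n • x = 0 → x = 0

/-- `D` is squarefree and `1` modulo `3`. -/
def Base (D : 𝓞 K) : Prop := (3 : 𝓞 K) ∣ D - 1 ∧ Squarefree D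

/-- `D` is squarefree and `1` modulo `3`, and its norm is not `1` modulo `9`. -/
def InClass (D : 𝓞 K) : Prop :=
  (3 : 𝓞 K) ∣ D - 1 ∧ Squarefree D ∧ ¬ (9 : ℤ) ∣ Algebra.norm ℤ D - 1

/-- The number of the primes `π = 1` modulo `3` of norm at most `X` with the property `T`. -/
noncomputable def count (T : 𝓞 K → Prop) (X : ℕ) : ℕ :=
  {π : 𝓞 K | Algebra.norm ℤ π ≤ X ∧ (Prime π ∧ (3 : 𝓞 K) ∣ π - 1) ∧ T π}.ncard

/-- `D_i π` is in the class for all `i`. -/
def Allowed {n : ℕ} (D : Fin n → 𝓞 K) (π : 𝓞 K) : Prop := ∀ i, InClass (D i * π)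

/-- The conclusion holds for all the twists by `D_i π`. -/
def Good {n : ℕ} (D : Fin n → 𝓞 K) (π : 𝓞 K) : Prop :=
  ∀ i, InClass (D i * π) ∧ FiniteAndTrivial (D i * π) ∧ RankZero (curve ((D i * π : 𝓞 K) : K))

/-- The prime divisors of `D` that are `1` modulo `3` (for `D ≠ 0` there are finitely many; each
prime divisor of an element that is `1` modulo `3` has exactly one associate of this kind). -/
noncomputable def divisors (D : 𝓞 K) : Finset (𝓞 K) :=
  if h : {q : 𝓞 K | (Prime q ∧ (3 : 𝓞 K) ∣ q - 1) ∧ q ∣ D}.Finite then h.toFinset else ∅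

/-- The cubic residue symbol: `(x / q)_3 = ω ^ symbol ω q x`. -/
noncomputable def symbol (ω q x : 𝓞 K) : ZMod 3 :=
  if h : ∃ c : ZMod 3, q ∣ x ^ (((Algebra.norm ℤ q).natAbs - 1) / 3) - ω ^ c.val then h.choose
  else 0

/-- The Laplacian of the symbols of the prime divisors of `D`, with `u` added to the diagonal, has
the kernel zero. -/
def Nonsingular (ω D : 𝓞 K) (u : 𝓞 K → ZMod 3) : Prop :=
  ∀ v : 𝓞 K → ZMod 3,
    (∀ q ∈ divisors D, ∑ r ∈ divisors D, symbol ω q r * (v r - v q) = u q * v q) →
      ∀ q ∈ divisors D, v q = 0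

/-- The prime divisors of the `D_i`. -/
noncomputable def allDivisors {n : ℕ} (D : Fin n → 𝓞 K) : Finset (𝓞 K) :=
  Finset.univ.biUnion fun i => divisors (D i)

/-- The proportion of the functions `u` on the prime divisors for which all the perturbed Laplacians
are nonsingular. -/
noncomputable def c {n : ℕ} (ω : 𝓞 K) (D : Fin n → 𝓞 K) : ℝ :=
  (Nat.card {u : allDivisors D → ZMod 3 // ∀ i,
    Nonsingular ω (D i) fun q => if h : q ∈ allDivisors D then u ⟨q, h⟩ else 0} : ℝ) /
      3 ^ (allDivisors D).card

/-- The number of the classes `r = 1, 4, 7` modulo `9` such that `N(D_i) r` is not `1` modulo `9` for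
all `i`. -/
noncomputable def classes {n : ℕ} (D : Fin n → 𝓞 K) : ℕ :=
  (({1, 4, 7} : Finset ℤ).filter fun r => ∀ i, ¬ (9 : ℤ) ∣ Algebra.norm ℤ (D i) * r - 1).card

theorem classes_pos {n : ℕ} (hn : n ≤ 2) (D : Fin n → 𝓞 K) : 0 < classes D := by
  unfold classes
  by_contra h0
  have h1 : (({1, 4, 7} : Finset ℤ).filter fun r => ∀ i, ¬ (9 : ℤ) ∣ Algebra.norm ℤ (D i) * r - 1) =
      ∅ := Finset.card_eq_zero.1 (by omega)
  rw [Finset.filter_eq_empty_iff] at h1
  have h2 : ∀ r ∈ ({1, 4, 7} : Finset ℤ), ∃ i, (9 : ℤ) ∣ Algebra.norm ℤ (D i) * r - 1 := by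
    intro r hr
    have := h1 hr
    push Not at this
    exact this
  obtain ⟨a, ha⟩ := h2 1 (by decide)
  obtain ⟨b, hb⟩ := h2 4 (by decide)
  obtain ⟨e, he⟩ := h2 7 (by decide)
  have hab : a ≠ b := by
    rintro rfl
    omega
  have hae : a ≠ e := by
    rintro rfl
    omega
  have hbe : b ≠ e := by
    rintro rfl
    omega
  have := a.2
  have := b.2
  have := e.2
  have h3 : (a : ℕ) ≠ b := fun h => hab (Fin.ext h)
  have h4 : (a : ℕ) ≠ e := fun h => hae (Fin.ext h)
  have h5 : (b : ℕ) ≠ e := fun h => hbe (Fin.ext h)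
  omega

theorem result (K : Type) [Field K] [NumberField K] [IsCyclotomicExtension {3} ℚ K] (ω : 𝓞 K)
    (hω : ω ^ 2 + ω + 1 = 0) (n : ℕ) (D : Fin n → 𝓞 K) (hD : ∀ i, Base (D i)) :
    Filter.Tendsto (fun X : ℕ => (count (Allowed D) X : ℝ) / (count (fun _ : 𝓞 K => True) X : ℝ))
      Filter.atTop (nhds ((classes D : ℝ) / 3)) ∧
    (0 < classes D →
      Filter.Tendsto (fun X : ℕ => (count (Good D) X : ℝ) / (count (Allowed D) X : ℝ))
        Filter.atTop (nhds (c ω D))) ∧
    ((∀ q : 𝓞 K, Prime q → (Finset.univ.filter fun i => q ∣ D i).card ≤ 2) → 0 < c ω D) ∧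
    (n ≤ 2 → 0 < classes D ∧ 0 < c ω D) := by
  obtain ⟨h1, h2, h3⟩ := Q283.TC.fin_K K ω hω D hD
  refine ⟨h1, h2, h3, fun hn => ⟨classes_pos hn D, h3 fun q _ => ?_⟩⟩
  refine (Finset.card_le_univ _).trans ?_
  rw [Fintype.card_fin]
  exact hn

end Pool.Agent.Results.MP_ae0bd0_nt.SimultaneousCubicTwists
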